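import Pool.Agent.Helper28.ND.Spec

/-!
# ND: integration by parts for the composition with the Weierstrass function (parts IBPW, CURL)
-/

namespace Pool.Agent.Helper84.ND
open Pool.Agent.Helper28.ND
open MeasureTheory Set Filter Topology
open scoped ENNReal NNReal

noncomputable section

/-- `prj` as a continuous linear map. -/
def prjL {d : ℕ} (hd : 2 ≤ d) : (Fin d → ℝ) →L[ℝ] ℂ :=
  (Complex.equivRealProdCLM.symm : ℝ × ℝ →L[ℝ] ℂ).comp
    ((ContinuousLinearMap.proj (R := ℝ) (φ := fun _ : Fin d => ℝ) (i0 hd)).prod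
      (ContinuousLinearMap.proj (R := ℝ) (φ := fun _ : Fin d => ℝ) (i1 hd)))

lemma prjL_apply {d : ℕ} (hd : 2 ≤ d) (x : Fin d → ℝ) : prjL hd x = prj hd x := by
  apply Complex.ext <;> simp [prjL, prj, i0, i1]

lemma prj_eq {d : ℕ} (hd : 2 ≤ d) : prj hd = prjL hd := by
  funext x; rw [prjL_apply]

lemma continuous_prj {d : ℕ} (hd : 2 ≤ d) : Continuous (prj hd) := by
  rw [prj_eq]; exact (prjL hd).continuous

lemma norm_prj_single {d : ℕ} (hd : 2 ≤ d) (i : Fin d) : ‖prj hd (Pi.single i 1)‖ ≤ 1 := by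
  have hne : (⟨0, by omega⟩ : Fin d) ≠ ⟨1, by omega⟩ := by
    intro h
    have := congrArg Fin.val h
    simp at this
  rw [Complex.norm_def]
  refine (Real.sqrt_le_sqrt (y := 1) ?_).trans (by rw [Real.sqrt_one])
  simp only [Complex.normSq_apply, prj]
  by_cases h0 : i = ⟨0, by omega⟩
  · subst h0
    rw [Pi.single_eq_same, Pi.single_eq_of_ne hne.symm]
    norm_num
  · rw [Pi.single_eq_of_ne (Ne.symm h0)]
    by_cases h1' : i = ⟨1, by omega⟩
    · subst h1'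
      rw [Pi.single_eq_same]; norm_num
    · rw [Pi.single_eq_of_ne (Ne.symm h1')]; norm_num

/-- chain rule -/
lemma pd_cp {d : ℕ} (hd : 2 ≤ d) (Z : ℂ → ℝ) (x : Fin d → ℝ) (i : Fin d)
    (hw : AnalyticAt ℂ wp (prj hd x)) (hZ : DifferentiableAt ℝ Z (wp (prj hd x))) :
    pd i (cp hd Z) x
      = fderiv ℝ Z (wp (prj hd x)) (deriv wp (prj hd x) * prj hd (Pi.single i 1)) := by
  have h1 : HasFDerivAt wp ((deriv wp (prj hd x)) • (1 : ℂ →L[ℝ] ℂ)) (prj hd x) :=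
    hw.differentiableAt.hasDerivAt.complexToReal_fderiv
  have h2 : HasFDerivAt (prj hd) (prjL hd) x := by
    rw [prj_eq]; exact (prjL hd).hasFDerivAt
  have h3 := hZ.hasFDerivAt.comp x (h1.comp x h2)
  have h4 : HasFDerivAt (cp hd Z) ((fderiv ℝ Z (wp (prj hd x))).comp
      (((deriv wp (prj hd x)) • (1 : ℂ →L[ℝ] ℂ)).comp (prjL hd))) x := h3
  unfold pd
  rw [h4.fderiv]
  simp [prjL_apply]

lemma pd_cp_le {d : ℕ} (hd : 2 ≤ d) (Z : ℂ → ℝ) (x : Fin d → ℝ) (i : Fin d)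
    (hw : AnalyticAt ℂ wp (prj hd x)) (hZ : DifferentiableAt ℝ Z (wp (prj hd x))) :
    ‖pd i (cp hd Z) x‖ ≤ ‖fderiv ℝ Z (wp (prj hd x))‖ * ‖deriv wp (prj hd x)‖ := by
  rw [pd_cp hd Z x i hw hZ]
  refine (ContinuousLinearMap.le_opNorm _ _).trans ?_
  refine mul_le_mul_of_nonneg_left ?_ (norm_nonneg _)
  rw [norm_mul]
  calc ‖deriv wp (prj hd x)‖ * ‖prj hd (Pi.single i 1)‖
      ≤ ‖deriv wp (prj hd x)‖ * 1 :=
        mul_le_mul_of_nonneg_left (norm_prj_single hd i) (norm_nonneg _)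
    _ = _ := mul_one _

/-- near a lattice point `wp` is large, except at the point -/
lemma eventually_large (hF : S_WPF) (R : ℝ) : ∀ᶠ z in 𝓝[≠] (0 : ℂ), R ≤ ‖wp z‖ := by
  have h := hF.2.2.2.2.2.2
  have h1 : ∀ᶠ z in 𝓝[≠] (0 : ℂ), (1 / 2 : ℝ) < ‖z ^ 2 * wp z‖ := by
    have := h.norm
    rw [norm_one] at this
    exact this.eventually (lt_mem_nhds (by norm_num))
  have h2 : ∀ᶠ z in 𝓝[≠] (0 : ℂ), ‖z‖ ^ 2 * (|R| + 1) < 1 / 2 := by
    have h3 : Tendsto (fun z : ℂ => ‖z‖ ^ 2 * (|R| + 1)) (𝓝 0) (𝓝 (‖(0 : ℂ)‖ ^ 2 * (|R| + 1))) :=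
      ((continuous_norm.pow 2).mul continuous_const).tendsto 0
    have h4 : ‖(0 : ℂ)‖ ^ 2 * (|R| + 1) = 0 := by simp
    rw [h4] at h3
    exact (h3.eventually (gt_mem_nhds (by norm_num))).filter_mono nhdsWithin_le_nhds
  filter_upwards [h1, h2, self_mem_nhdsWithin] with z hz1 hz2 hz3
  have hz : 0 < ‖z‖ := norm_pos_iff.2 hz3
  rw [norm_mul, norm_pow] at hz1
  have h5 : ‖z‖ ^ 2 * (|R| + 1) < ‖z‖ ^ 2 * ‖wp z‖ := by linarith
  have h6 := lt_of_mul_lt_mul_left h5 (by positivity)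
  linarith [le_abs_self R]

/-- composition of a `C^1` function vanishing near `0` and near `∞` with `wp` -/
lemma contDiff_comp_wp (hF : S_WPF) (Z : ℂ → ℝ) (hZ : ContDiff ℝ 1 Z) (ε R : ℝ) (hε : 0 < ε)
    (h1 : ∀ w, ‖w‖ ≤ ε → Z w = 0) (h2 : ∀ w, R ≤ ‖w‖ → Z w = 0) :
    ContDiff ℝ 1 (fun z => Z (wp z)) := by
  rw [contDiff_iff_contDiffAt]
  intro z
  by_cases hz : z ∈ Bad
  · by_cases hl : z ∈ (Lat.lattice : Set ℂ)
    · have hlarge : ∀ᶠ y in 𝓝 (0 : ℂ), Z (wp y) = 0 := by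
        have h3 := eventually_large hF R
        rw [eventually_nhdsWithin_iff] at h3
        filter_upwards [h3] with y hy
        by_cases hy0 : y = 0
        · subst hy0
          have h0 : wp 0 = 0 := PeriodPair.weierstrassP_zero Lat
          rw [h0]
          exact h1 0 (by simp [hε.le])
        · exact h2 _ (hy hy0)
      have hsh : Tendsto (fun y : ℂ => y - z) (𝓝 z) (𝓝 0) := by
        have h : Tendsto (fun y : ℂ => y - z) (𝓝 z) (𝓝 (z - z)) :=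
          tendsto_id.sub tendsto_const_nhds
        rwa [sub_self] at h
      have h4 := hsh.eventually hlarge
      have h5 : (fun y => Z (wp y)) =ᶠ[𝓝 z] fun _ => 0 := by
        filter_upwards [h4] with y hy
        have h6 : wp (y - z) = wp y := PeriodPair.weierstrassP_sub_coe Lat y ⟨z, hl⟩
        rw [h6] at hy
        exact hy
      exact contDiffAt_const.congr_of_eventuallyEq h5
    · have hopen : (Lat.lattice : Set ℂ)ᶜ ∈ 𝓝 z :=
        (PeriodPair.isClosed_lattice Lat).isOpen_compl.mem_nhds hl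
      have hcont : ContinuousAt wp z :=
        ((PeriodPair.differentiableOn_weierstrassP Lat).differentiableAt hopen).continuousAt
      have hz0 : wp z = 0 := hz
      have h3 : ∀ᶠ y in 𝓝 z, ‖wp y‖ < ε := by
        have h4 : Tendsto (fun y => ‖wp y‖) (𝓝 z) (𝓝 ‖wp z‖) := hcont.norm
        rw [hz0, norm_zero] at h4
        exact h4.eventually (gt_mem_nhds hε)
      have h5 : (fun y => Z (wp y)) =ᶠ[𝓝 z] fun _ => 0 := by
        filter_upwards [h3] with y hy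
        exact h1 _ hy.le
      exact contDiffAt_const.congr_of_eventuallyEq h5
  · have ha : AnalyticAt ℂ wp z := hF.2.2.2.2.1 z hz
    have h3 : ContDiffAt ℝ 1 wp z := (ha.contDiffAt (n := 1)).restrict_scalars ℝ
    exact hZ.contDiffAt.comp z h3

lemma per_cp (hF : S_WPF) {d : ℕ} (hd : 2 ≤ d) (Z : ℂ → ℝ) : Per (cp hd Z) := by
  intro x k
  have h1 : Function.Periodic wp 1 := hF.1
  have hI : Function.Periodic wp Complex.I := hF.2.1
  have h2 : prj hd (fun i => x i + (k i : ℝ))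
      = prj hd x + ((k (i0 hd) : ℂ) * 1) + ((k (i1 hd) : ℂ) * Complex.I) := by
    apply Complex.ext <;> simp [prj, i0, i1]
  unfold cp
  rw [h2, (hI.int_mul (k (i1 hd))) _, (h1.int_mul (k (i0 hd))) _]

/-- the cutoff -/
def rho : ContDiffBump (0 : ℝ) := ⟨1, 2, one_pos, one_lt_two⟩

/-- the truncated function -/
def Zn (Y : ℂ → ℝ) (n : ℕ) (w : ℂ) : ℝ := rho (Real.log (‖w‖ ^ 2) / ((n : ℝ) + 1)) * Y w

lemma rho_zero {s : ℝ} (h : 2 ≤ |s|) : rho s = 0 := by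
  apply rho.zero_of_le_dist
  rw [Real.dist_eq, sub_zero]; exact h

lemma rho_one {s : ℝ} (h : |s| ≤ 1) : rho s = 1 := by
  apply rho.one_of_mem_closedBall
  rw [Metric.mem_closedBall, Real.dist_eq, sub_zero]; exact h

lemma Zn_small (Y : ℂ → ℝ) (h0 : Y 0 = 0) (n : ℕ) (w : ℂ)
    (hw : ‖w‖ ≤ Real.exp (-((n : ℝ) + 1))) : Zn Y n w = 0 := by
  unfold Zn
  by_cases hw0 : w = 0
  · rw [hw0, h0, mul_zero]
  · have hpos : 0 < ‖w‖ := norm_pos_iff.2 hw0
    have h1 : Real.log ‖w‖ ≤ -((n : ℝ) + 1) := by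
      rw [Real.log_le_iff_le_exp hpos]; exact hw
    have hn : (0 : ℝ) < (n : ℝ) + 1 := by positivity
    rw [rho_zero, zero_mul]
    rw [Real.log_pow, abs_div, abs_of_pos hn, le_div_iff₀ hn]
    rw [abs_of_nonpos (by push_cast; nlinarith)]
    push_cast
    linarith

lemma Zn_large (Y : ℂ → ℝ) (n : ℕ) (w : ℂ)
    (hw : Real.exp ((n : ℝ) + 1) ≤ ‖w‖) : Zn Y n w = 0 := by
  unfold Zn
  have hpos : 0 < ‖w‖ := lt_of_lt_of_le (Real.exp_pos _) hw
  have h1 : (n : ℝ) + 1 ≤ Real.log ‖w‖ := by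
    rw [Real.le_log_iff_exp_le hpos]; exact hw
  have hn : (0 : ℝ) < (n : ℝ) + 1 := by positivity
  rw [rho_zero, zero_mul]
  rw [Real.log_pow, abs_div, abs_of_pos hn, le_div_iff₀ hn]
  rw [abs_of_nonneg (by push_cast; nlinarith)]
  push_cast
  linarith

lemma cutoff_contDiffAt (n : ℕ) (w : ℂ) (hw : w ≠ 0) :
    ContDiffAt ℝ (⊤ : ℕ∞) (fun w : ℂ => rho (Real.log (‖w‖ ^ 2) / ((n : ℝ) + 1))) w := by
  have h1 : ContDiffAt ℝ (⊤ : ℕ∞) (fun w : ℂ => ‖w‖ ^ 2) w := (contDiff_norm_sq ℝ).contDiffAt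
  have h2 : ContDiffAt ℝ (⊤ : ℕ∞) (fun w : ℂ => Real.log (‖w‖ ^ 2)) w :=
    h1.log (by positivity)
  have h3 : ContDiffAt ℝ (⊤ : ℕ∞) (fun w : ℂ => Real.log (‖w‖ ^ 2) / ((n : ℝ) + 1)) w :=
    h2.div_const _
  exact (rho.contDiff (n := (⊤ : ℕ∞))).contDiffAt.comp w h3

lemma Zn_contDiff {a : ℝ} {Y : ℂ → ℝ} (hY : Good a Y) (n : ℕ) : ContDiff ℝ 1 (Zn Y n) := by
  rw [contDiff_iff_contDiffAt]
  intro w
  by_cases hw : w = 0
  · have h1 : ∀ᶠ y in 𝓝 (0 : ℂ), ‖y‖ < Real.exp (-((n : ℝ) + 1)) := by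
      have h4 : Tendsto (fun y : ℂ => ‖y‖) (𝓝 0) (𝓝 ‖(0 : ℂ)‖) := continuous_norm.tendsto 0
      rw [norm_zero] at h4
      exact h4.eventually (gt_mem_nhds (Real.exp_pos _))
    have h5 : Zn Y n =ᶠ[𝓝 w] fun _ => 0 := by
      rw [hw]
      filter_upwards [h1] with y hy
      exact Zn_small Y hY.zero n y hy.le
    exact contDiffAt_const.congr_of_eventuallyEq h5
  · have h1 := (cutoff_contDiffAt n w hw).mul (hY.smooth w hw)
    exact h1.of_le (by exact_mod_cast le_top)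

lemma exists_deriv_bound : ∃ C1 : ℝ, 0 ≤ C1 ∧ ∀ s, |deriv rho s| ≤ C1 := by
  have h1 : Continuous (deriv rho) := (rho.contDiff (n := 1)).continuous_deriv le_rfl
  have h2 : HasCompactSupport (deriv rho) := rho.hasCompactSupport.deriv
  obtain ⟨C, hC⟩ := h1.bounded_above_of_compact_support h2
  exact ⟨C, (norm_nonneg _).trans (hC 0), fun s => hC s⟩

lemma cutoff_fderiv_le {C1 : ℝ} (hC1 : ∀ s, |deriv rho s| ≤ C1) (hC0 : 0 ≤ C1) (n : ℕ) (w : ℂ)
    (hw : w ≠ 0) :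
    ‖fderiv ℝ (fun w : ℂ => rho (Real.log (‖w‖ ^ 2) / ((n : ℝ) + 1))) w‖
      ≤ 2 * C1 * ‖w‖⁻¹ := by
  have hpos : 0 < ‖w‖ := norm_pos_iff.2 hw
  have hn : (1 : ℝ) ≤ (n : ℝ) + 1 := by
    have : (0 : ℝ) ≤ n := Nat.cast_nonneg n
    linarith
  have h1 : HasFDerivAt (fun w : ℂ => ‖w‖ ^ 2) (2 • (innerSL ℝ w)) w :=
    (hasStrictFDerivAt_norm_sq w).hasFDerivAt
  have h2 : HasFDerivAt (fun w : ℂ => Real.log (‖w‖ ^ 2))
      ((‖w‖ ^ 2)⁻¹ • (2 • (innerSL ℝ w) : ℂ →L[ℝ] ℝ)) w := h1.log (by positivity)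
  have h3 : HasFDerivAt (fun w : ℂ => Real.log (‖w‖ ^ 2) / ((n : ℝ) + 1))
      (((n : ℝ) + 1)⁻¹ • ((‖w‖ ^ 2)⁻¹ • (2 • (innerSL ℝ w) : ℂ →L[ℝ] ℝ))) w := by
    have := h2.const_mul (((n : ℝ) + 1)⁻¹)
    refine this.congr_of_eventuallyEq (Eventually.of_forall fun y => ?_)
    simp only [div_eq_inv_mul]
  have h4 : HasDerivAt rho (deriv rho (Real.log (‖w‖ ^ 2) / ((n : ℝ) + 1)))
      (Real.log (‖w‖ ^ 2) / ((n : ℝ) + 1)) :=
    ((rho.contDiff (n := 1)).differentiable (by norm_num) _).hasDerivAt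
  have h5 := h4.comp_hasFDerivAt w h3
  have h6 : fderiv ℝ (fun w : ℂ => rho (Real.log (‖w‖ ^ 2) / ((n : ℝ) + 1))) w = _ := h5.fderiv
  rw [h6, norm_smul, norm_smul, norm_smul, ← Nat.cast_smul_eq_nsmul ℝ, norm_smul,
    innerSL_apply_norm]
  rw [Real.norm_eq_abs, Real.norm_eq_abs, Real.norm_eq_abs, Real.norm_eq_abs,
    abs_of_pos (show 0 < ((n : ℝ) + 1)⁻¹ by positivity),
    abs_of_pos (show 0 < (‖w‖ ^ 2)⁻¹ by positivity)]
  have h7 : ((n : ℝ) + 1)⁻¹ ≤ 1 := inv_le_one_of_one_le₀ hn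
  have h8 : (‖w‖ ^ 2)⁻¹ * (|((2 : ℕ) : ℝ)| * ‖w‖) = 2 * ‖w‖⁻¹ := by
    rw [Nat.cast_ofNat, abs_of_pos (by norm_num : (0 : ℝ) < 2)]
    field_simp
  rw [h8]
  calc |deriv rho (Real.log (‖w‖ ^ 2) / ((n : ℝ) + 1))| * (((n : ℝ) + 1)⁻¹ * (2 * ‖w‖⁻¹))
      ≤ C1 * (1 * (2 * ‖w‖⁻¹)) := by
        refine mul_le_mul (hC1 _) ?_ (by positivity) hC0
        exact mul_le_mul_of_nonneg_right h7 (by positivity)
    _ = 2 * C1 * ‖w‖⁻¹ := by ring

/-- uniform bound of the derivatives of the truncated functions -/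
lemma Zn_fderiv_le {a : ℝ} {Y : ℂ → ℝ} (hY : Good a Y) : ∃ C2 : ℝ, 0 ≤ C2 ∧ ∀ (n : ℕ) (w : ℂ),
    w ≠ 0 → ‖fderiv ℝ (Zn Y n) w‖ ≤ C2 * (‖w‖⁻¹ + ‖w‖ ^ (2 * a - 1)) := by
  obtain ⟨C1, hC0, hC1⟩ := exists_deriv_bound
  obtain ⟨C, hC, hb, hg⟩ := hY.bd
  refine ⟨C + 2 * C1 * C, by positivity, fun n w hw => ?_⟩
  have hpos : 0 < ‖w‖ := norm_pos_iff.2 hw
  have h1 : DifferentiableAt ℝ (fun w : ℂ => rho (Real.log (‖w‖ ^ 2) / ((n : ℝ) + 1))) w :=
    (cutoff_contDiffAt n w hw).differentiableAt (by simp)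
  have h2 : DifferentiableAt ℝ Y w := (hY.smooth w hw).differentiableAt (by simp)
  have h3 : fderiv ℝ (Zn Y n) w
      = rho (Real.log (‖w‖ ^ 2) / ((n : ℝ) + 1)) • fderiv ℝ Y w
        + Y w • fderiv ℝ (fun w : ℂ => rho (Real.log (‖w‖ ^ 2) / ((n : ℝ) + 1))) w :=
    fderiv_mul h1 h2
  rw [h3]
  refine (norm_add_le _ _).trans ?_
  rw [norm_smul, norm_smul, Real.norm_eq_abs, Real.norm_eq_abs]
  have h4 : |rho (Real.log (‖w‖ ^ 2) / ((n : ℝ) + 1))| ≤ 1 := by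
    rw [abs_of_nonneg rho.nonneg]; exact rho.le_one
  have h5 : |rho (Real.log (‖w‖ ^ 2) / ((n : ℝ) + 1))| * ‖fderiv ℝ Y w‖
      ≤ 1 * (C * (‖w‖⁻¹ + ‖w‖ ^ (2 * a - 1))) :=
    mul_le_mul h4 (hg w hw) (norm_nonneg _) zero_le_one
  have h6 : |Y w| * ‖fderiv ℝ (fun w : ℂ => rho (Real.log (‖w‖ ^ 2) / ((n : ℝ) + 1))) w‖
      ≤ (C * (1 + ‖w‖ ^ (2 * a))) * (2 * C1 * ‖w‖⁻¹) :=
    mul_le_mul (hb w) (cutoff_fderiv_le hC1 hC0 n w hw) (norm_nonneg _) (by positivity)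
  have h7 : ‖w‖ ^ (2 * a - 1) = ‖w‖ ^ (2 * a) * ‖w‖⁻¹ := by
    rw [Real.rpow_sub_one hpos.ne', div_eq_mul_inv]
  have h8 : (C * (1 + ‖w‖ ^ (2 * a))) * (2 * C1 * ‖w‖⁻¹)
      = 2 * C1 * C * (‖w‖⁻¹ + ‖w‖ ^ (2 * a - 1)) := by
    rw [h7]; ring
  rw [h8] at h6
  calc _ ≤ 1 * (C * (‖w‖⁻¹ + ‖w‖ ^ (2 * a - 1)))
        + 2 * C1 * C * (‖w‖⁻¹ + ‖w‖ ^ (2 * a - 1)) := add_le_add h5 h6
    _ = _ := by ring

/-- the truncated functions agree with `Y` near a given point, eventually -/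
lemma Zn_eventually (Y : ℂ → ℝ) (w : ℂ) (hw : w ≠ 0) :
    ∀ᶠ n : ℕ in atTop, Zn Y n =ᶠ[𝓝 w] Y := by
  have hpos : 0 < ‖w‖ := norm_pos_iff.2 hw
  have h1 : ContinuousAt (fun w : ℂ => Real.log (‖w‖ ^ 2)) w :=
    ContinuousAt.log ((continuous_norm.pow 2).continuousAt) (by positivity)
  have h2 : ∀ᶠ y in 𝓝 w, |Real.log (‖y‖ ^ 2)| < |Real.log (‖w‖ ^ 2)| + 1 := by
    have h3 : Tendsto (fun y : ℂ => |Real.log (‖y‖ ^ 2)|) (𝓝 w) (𝓝 |Real.log (‖w‖ ^ 2)|) :=
      h1.abs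
    exact h3.eventually (gt_mem_nhds (by linarith))
  obtain ⟨N, hN⟩ := exists_nat_gt (|Real.log (‖w‖ ^ 2)| + 1)
  filter_upwards [eventually_ge_atTop N] with n hn
  filter_upwards [h2] with y hy
  unfold Zn
  rw [rho_one, one_mul]
  have hn' : (N : ℝ) ≤ n := by exact_mod_cast hn
  have hp : (0 : ℝ) < (n : ℝ) + 1 := by positivity
  rw [abs_div, abs_of_pos hp, div_le_one hp]
  linarith

lemma abs_Zn_le (Y : ℂ → ℝ) (n : ℕ) (w : ℂ) : |Zn Y n w| ≤ |Y w| := by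
  unfold Zn
  rw [abs_mul, abs_of_nonneg rho.nonneg]
  calc _ ≤ 1 * |Y w| := mul_le_mul_of_nonneg_right rho.le_one (abs_nonneg _)
    _ = _ := one_mul _

/-- the bad set is null -/
lemma ae_not_bad (hF : S_WPF) (hP : S_PRJ) {d : ℕ} (hd : 2 ≤ d) :
    ∀ᵐ x ∂(volume.restrict (Q d)), prj hd x ∉ Bad := by
  have hm : MeasurableSet Bad := hF.2.2.1.measurableSet
  have hmp : Measurable (prj hd) := (continuous_prj hd).measurable
  have h1 := hP d hd (Bad.indicator 1) (measurable_one.indicator hm)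
  have h2 : ∫⁻ z in Sq, Bad.indicator (1 : ℂ → ℝ≥0∞) z = 0 := by
    rw [lintegral_indicator_one hm]
    exact Measure.absolutelyContinuous_of_le Measure.restrict_le_self
      (hF.2.2.2.1.measure_zero volume)
  rw [h2, lintegral_eq_zero_iff (f := fun x => Bad.indicator (1 : ℂ → ℝ≥0∞) (prj hd x))
    ((measurable_one.indicator hm).comp hmp)] at h1
  filter_upwards [h1] with x hx hb
  simp [Set.indicator_of_mem hb] at hx

lemma measurable_Y {a : ℝ} {Y : ℂ → ℝ} (hY : Good a Y) : Measurable Y := by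
  refine measurable_of_continuousOn_compl_singleton 0 fun w hw => ?_
  exact (hY.smooth w hw).continuousAt.continuousWithinAt

lemma integrable_of_ofReal {α : Type} [MeasurableSpace α] {μ : Measure α} {f : α → ℝ}
    (hm : Measurable f) (h0 : ∀ x, 0 ≤ f x) (h : ∫⁻ x, ENNReal.ofReal (f x) ∂μ < ⊤) :
    Integrable f μ := by
  refine ⟨hm.aestronglyMeasurable, ?_⟩
  rw [hasFiniteIntegral_iff_ofReal (Eventually.of_forall h0)]
  exact h

section bounds
variable (hF : S_WPF) (hI : S_WPI) (hP : S_PRJ) {a : ℝ} (ha : 0 < a) (ha4 : a < 1 / 4)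
  {d : ℕ} (hd : 2 ≤ d)
include hF hI hP ha ha4

lemma integrable_h1 : IntegrableOn
    (fun x => ‖deriv wp (prj hd x)‖ * (‖wp (prj hd x)‖⁻¹ + ‖wp (prj hd x)‖ ^ (2 * a - 1)))
    (Q d) := by
  have hmw : Measurable wp := hF.2.2.2.2.2.1
  have hmp : Measurable (prj hd) := (continuous_prj hd).measurable
  have hmd : Measurable (deriv wp) := measurable_deriv _
  have hmF : Measurable (fun z => ‖deriv wp z‖ * (‖wp z‖⁻¹ + ‖wp z‖ ^ (2 * a - 1))) :=
    hmd.norm.mul (hmw.norm.inv.add (hmw.norm.pow_const _))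
  refine integrable_of_ofReal (hmF.comp hmp) (fun _ => by positivity) ?_
  have h1 := hP d hd (fun z => ENNReal.ofReal
    ((‖deriv wp z‖ * (‖wp z‖⁻¹ + ‖wp z‖ ^ (2 * a - 1))) ^ (1 : ℝ)))
    (hmF.pow_const _).ennreal_ofReal
  have h2 := (hI a 1 ha le_rfl (by linarith)).1
  rw [← h1] at h2
  simpa only [Real.rpow_one] using h2

lemma integrable_h2 : IntegrableOn (fun x => 1 + ‖wp (prj hd x)‖ ^ (2 * a)) (Q d) := by
  have hmw : Measurable wp := hF.2.2.2.2.2.1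
  have hmp : Measurable (prj hd) := (continuous_prj hd).measurable
  have hmF : Measurable (fun z => 1 + ‖wp z‖ ^ (2 * a)) :=
    measurable_const.add (hmw.norm.pow_const _)
  refine integrable_of_ofReal (hmF.comp hmp) (fun _ => by positivity) ?_
  have h1 := hP d hd (fun z => ENNReal.ofReal (1 + ‖wp z‖ ^ (2 * a))) hmF.ennreal_ofReal
  have h2 := (hI a 1 ha le_rfl (by linarith)).2
  rw [← h1] at h2
  exact h2

lemma integrable_cp {Y : ℂ → ℝ} (hY : Good a Y) : IntegrableOn (cp hd Y) (Q d) := by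
  obtain ⟨C, hC, hb, hg⟩ := hY.bd
  have hmw : Measurable wp := hF.2.2.2.2.2.1
  have hmp : Measurable (prj hd) := (continuous_prj hd).measurable
  refine Integrable.mono' ((integrable_h2 hF hI hP ha ha4 hd).const_mul C)
    ((measurable_Y hY).comp (hmw.comp hmp)).aestronglyMeasurable
    (Eventually.of_forall fun _ => ?_)
  exact hb _

lemma integrable_pd_cp {Y : ℂ → ℝ} (hY : Good a Y) (i : Fin d) :
    IntegrableOn (pd i (cp hd Y)) (Q d) := by
  obtain ⟨C, hC, hb, hg⟩ := hY.bd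
  refine Integrable.mono' ((integrable_h1 hF hI hP ha ha4 hd).const_mul C)
    (measurable_fderiv_apply_const ℝ (cp hd Y) _).aestronglyMeasurable ?_
  filter_upwards [ae_not_bad hF hP hd] with x hx
  have hw0 : wp (prj hd x) ≠ 0 := hx
  refine (pd_cp_le hd Y x i (hF.2.2.2.2.1 _ hx)
    ((hY.smooth _ hw0).differentiableAt (by simp))).trans ?_
  calc _ ≤ (C * (‖wp (prj hd x)‖⁻¹ + ‖wp (prj hd x)‖ ^ (2 * a - 1))) * ‖deriv wp (prj hd x)‖ :=
        mul_le_mul_of_nonneg_right (hg _ hw0) (norm_nonneg _)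
    _ = _ := by ring

end bounds

lemma bounded_on_Q {d : ℕ} (f : (Fin d → ℝ) → ℝ) (hf : Continuous f) :
    ∃ M : ℝ, 0 ≤ M ∧ ∀ x ∈ Q d, |f x| ≤ M := by
  obtain ⟨M, hM⟩ := (isCompact_Icc (a := (0 : Fin d → ℝ)) (b := 1)).exists_bound_of_continuousOn
    hf.continuousOn
  refine ⟨max M 0, le_max_right _ _, fun x hx => (hM x ⟨fun i => ?_, fun i => ?_⟩).trans
    (le_max_left _ _)⟩
  · exact (hx i (mem_univ i)).1.le
  · exact (hx i (mem_univ i)).2

lemma measurableSet_Q (d : ℕ) : MeasurableSet (Q d) :=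
  MeasurableSet.univ_pi fun _ => measurableSet_Ioc

lemma Q_subset (d : ℕ) : Q d ⊆ Icc (0 : Fin d → ℝ) 1 := fun x hx =>
  ⟨fun i => (hx i (mem_univ i)).1.le, fun i => (hx i (mem_univ i)).2⟩

lemma integrableOn_Q {d : ℕ} (f : (Fin d → ℝ) → ℝ) (hf : Continuous f) :
    IntegrableOn f (Q d) :=
  (hf.continuousOn.integrableOn_compact isCompact_Icc).mono_set (Q_subset d)

lemma continuous_pd {d : ℕ} (f : (Fin d → ℝ) → ℝ) (hf : ContDiff ℝ 1 f) (i : Fin d) :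
    Continuous (pd i f) :=
  (hf.continuous_fderiv (by norm_num)).clm_apply continuous_const

/-- integration by parts for the `C^1` functions -/
lemma ibp_C1 (h1 : S_IBP) {d : ℕ} (g f : (Fin d → ℝ) → ℝ) (hg : ContDiff ℝ 1 g)
    (hf : ContDiff ℝ 1 f) (pg : Per g) (pf : Per f) (i : Fin d) :
    ∫ x in Q d, pd i g x * f x = - ∫ x in Q d, g x * pd i f x := by
  have h2 := h1 d (fun x => g x * f x) (hg.mul hf)
    (fun x k => by simp only; rw [pg x k, pf x k]) i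
  have h3 : ∀ x, pd i (fun x => g x * f x) x = pd i g x * f x + g x * pd i f x := by
    intro x
    unfold pd
    rw [show (fun x => g x * f x) = g * f from rfl,
      fderiv_mul (hg.differentiable (by norm_num) x) (hf.differentiable (by norm_num) x)]
    simp
    ring
  simp only [h3] at h2
  rw [integral_add (f := fun x => pd i g x * f x) (g := fun x => g x * pd i f x)
    (integrableOn_Q _ ((continuous_pd g hg i).mul hf.continuous))
    (integrableOn_Q _ (hg.continuous.mul (continuous_pd f hf i)))] at h2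
  linarith

/-- IBPW -/
theorem ibpw (h1 : S_IBP) (hF : S_WPF) (hI : S_WPI) (hP : S_PRJ) : S_IBPW := by
  intro a ha ha4 Y hY d hd
  have hmw : Measurable wp := hF.2.2.2.2.2.1
  have hmp : Measurable (prj hd) := (continuous_prj hd).measurable
  refine ⟨(measurable_Y hY).comp (hmw.comp hmp), per_cp hF hd Y,
    integrable_cp hF hI hP ha ha4 hd hY, integrable_pd_cp hF hI hP ha ha4 hd hY, ?_⟩
  intro i f hf pf
  obtain ⟨M, hM0, hM⟩ := bounded_on_Q f hf.continuous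
  obtain ⟨M', hM0', hM'⟩ := bounded_on_Q (pd i f) (continuous_pd f hf i)
  obtain ⟨C2, hC20, hC2⟩ := Zn_fderiv_le hY
  obtain ⟨C, hC, hb, hg⟩ := hY.bd
  have hQ := measurableSet_Q d
  -- the truncated functions
  have hsm : ∀ n : ℕ, ContDiff ℝ 1 (cp hd (Zn Y n)) := by
    intro n
    have h2 := contDiff_comp_wp hF (Zn Y n) (Zn_contDiff hY n) _ _ (Real.exp_pos _)
      (Zn_small Y hY.zero n) (Zn_large Y n)
    have h3 : ContDiff ℝ 1 (prj hd) := by rw [prj_eq]; exact (prjL hd).contDiff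
    exact h2.comp h3
  have hn : ∀ n : ℕ, ∫ x in Q d, pd i (cp hd (Zn Y n)) x * f x
      = - ∫ x in Q d, cp hd (Zn Y n) x * pd i f x := fun n =>
    ibp_C1 h1 _ _ (hsm n) hf (per_cp hF hd _) pf i
  have hev : ∀ x, prj hd x ∉ Bad → ∀ᶠ n : ℕ in atTop, cp hd (Zn Y n) =ᶠ[𝓝 x] cp hd Y := by
    intro x hx
    have hc : ContinuousAt (fun x => wp (prj hd x)) x :=
      ContinuousAt.comp (f := prj hd) (g := wp) (hF.2.2.2.2.1 _ hx).continuousAt
        (continuous_prj hd).continuousAt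
    filter_upwards [Zn_eventually Y (wp (prj hd x)) hx] with n hn'
    exact hc.eventually hn'
  have hL : Tendsto (fun n : ℕ => ∫ x in Q d, pd i (cp hd (Zn Y n)) x * f x) atTop
      (𝓝 (∫ x in Q d, pd i (cp hd Y) x * f x)) := by
    refine tendsto_integral_of_dominated_convergence
      (fun x => (‖deriv wp (prj hd x)‖ * (‖wp (prj hd x)‖⁻¹ + ‖wp (prj hd x)‖ ^ (2 * a - 1)))
        * (C2 * M)) (fun n => ?_) ((integrable_h1 hF hI hP ha ha4 hd).mul_const _)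
      (fun n => ?_) ?_
    · exact ((continuous_pd _ (hsm n) i).mul hf.continuous).aestronglyMeasurable
    · filter_upwards [ae_not_bad hF hP hd, ae_restrict_mem hQ] with x hx hxQ
      have hw0 : wp (prj hd x) ≠ 0 := hx
      rw [norm_mul]
      have h3 : ‖pd i (cp hd (Zn Y n)) x‖ ≤
          (C2 * (‖wp (prj hd x)‖⁻¹ + ‖wp (prj hd x)‖ ^ (2 * a - 1))) * ‖deriv wp (prj hd x)‖ :=
        (pd_cp_le hd _ x i (hF.2.2.2.2.1 _ hx)
          ((Zn_contDiff hY n).differentiable (by norm_num) _)).trans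
          (mul_le_mul_of_nonneg_right (hC2 n _ hw0) (norm_nonneg _))
      calc _ ≤ ((C2 * (‖wp (prj hd x)‖⁻¹ + ‖wp (prj hd x)‖ ^ (2 * a - 1)))
              * ‖deriv wp (prj hd x)‖) * M :=
            mul_le_mul h3 (hM x hxQ) (abs_nonneg _) (by positivity)
        _ = _ := by ring
    · filter_upwards [ae_not_bad hF hP hd] with x hx
      refine tendsto_const_nhds.congr' ?_
      filter_upwards [hev x hx] with n hn'
      have h4 : pd i (cp hd (Zn Y n)) x = pd i (cp hd Y) x := by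
        unfold pd; rw [hn'.fderiv_eq]
      rw [h4]
  have hR : Tendsto (fun n : ℕ => ∫ x in Q d, cp hd (Zn Y n) x * pd i f x) atTop
      (𝓝 (∫ x in Q d, cp hd Y x * pd i f x)) := by
    refine tendsto_integral_of_dominated_convergence
      (fun x => (1 + ‖wp (prj hd x)‖ ^ (2 * a)) * (C * M')) (fun n => ?_)
      ((integrable_h2 hF hI hP ha ha4 hd).mul_const _)
      (fun n => ?_) ?_
    · exact ((hsm n).continuous.mul (continuous_pd f hf i)).aestronglyMeasurable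
    · filter_upwards [ae_restrict_mem hQ] with x hxQ
      rw [norm_mul]
      have h3 : ‖cp hd (Zn Y n) x‖ ≤ C * (1 + ‖wp (prj hd x)‖ ^ (2 * a)) :=
        (abs_Zn_le Y n _).trans (hb _)
      calc _ ≤ (C * (1 + ‖wp (prj hd x)‖ ^ (2 * a))) * M' :=
            mul_le_mul h3 (hM' x hxQ) (abs_nonneg _) (by positivity)
        _ = _ := by ring
    · filter_upwards [ae_not_bad hF hP hd] with x hx
      refine tendsto_const_nhds.congr' ?_
      filter_upwards [hev x hx] with n hn'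
      rw [hn'.eq_of_nhds]
  have h5 := hL.congr hn
  exact tendsto_nhds_unique h5 hR.neg

/-- CURL -/
theorem curl (h : S_IBPW) : S_CURL := by
  intro a ha ha4 Y hY d hd f hf pf
  obtain ⟨hm, hper, hint, hpint, hibp⟩ := h a ha ha4 Y hY d hd
  have hc1 : ∀ i, ContDiff ℝ 1 (pd i f) := fun i =>
    (hf.fderiv_right (m := 1) (by norm_num)).clm_apply contDiff_const
  have hp1 : ∀ i, Per (pd i f) := by
    intro i x k
    have h1 : (fun y : Fin d → ℝ => f (y + fun i => (k i : ℝ))) = f := by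
      funext y; exact pf y k
    have h2 : fderiv ℝ (fun y : Fin d → ℝ => f (y + fun i => (k i : ℝ))) x
        = fderiv ℝ f (x + fun i => (k i : ℝ)) := fderiv_comp_add_right _
    rw [h1] at h2
    unfold pd
    rw [h2]
    rfl
  have hb : ∀ i j, IntegrableOn (fun x => pd i (cp hd Y) x * pd j f x) (Q d) := by
    intro i j
    obtain ⟨M, hM0, hM⟩ := bounded_on_Q (pd j f) (hc1 j).continuous
    refine Integrable.mono' ((hpint i).norm.mul_const M)
      ((hpint i).aestronglyMeasurable.mul (hc1 j).continuous.aestronglyMeasurable) ?_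
    filter_upwards [ae_restrict_mem (measurableSet_Q d)] with x hx
    rw [norm_mul]
    exact mul_le_mul_of_nonneg_left (hM x hx) (norm_nonneg _)
  rw [integral_sub (f := fun x => pd (i0 hd) (cp hd Y) x * pd (i1 hd) f x)
    (g := fun x => pd (i1 hd) (cp hd Y) x * pd (i0 hd) f x) (hb _ _) (hb _ _),
    hibp (i0 hd) (pd (i1 hd) f) (hc1 _) (hp1 _), hibp (i1 hd) (pd (i0 hd) f) (hc1 _) (hp1 _)]
  have hsym : ∀ x, pd (i0 hd) (pd (i1 hd) f) x = pd (i1 hd) (pd (i0 hd) f) x := by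
    intro x
    have hd1 : DifferentiableAt ℝ (fderiv ℝ f) x :=
      (hf.fderiv_right (m := 1) (by norm_num)).differentiable (by norm_num) x
    have h3 : ∀ i j : Fin d, pd i (pd j f) x
        = fderiv ℝ (fderiv ℝ f) x (Pi.single i 1) (Pi.single j 1) := by
      intro i j
      unfold pd
      rw [fderiv_clm_apply hd1 (differentiableAt_const _)]
      simp
    rw [h3, h3]
    exact (hf.contDiffAt.isSymmSndFDerivAt (by simp)) _ _
  simp only [hsym]
  ring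

theorem IBPW.main (h1 : S_IBP) (hF : S_WPF) (hI : S_WPI) (hP : S_PRJ) : S_IBPW :=
  ibpw h1 hF hI hP

theorem CURL.main (h : S_IBPW) : S_CURL := curl h

end

end Pool.Agent.Helper84.ND
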